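import Mathlib

/-!
Elementary symmetric sums of a nonnegative (extended real) weight function and the
two estimates behind the bound on the discrepancy.
-/

open scoped ENNReal BigOperators
open Finset

namespace Pool.Agent.P.MP_c9cfcf_pr

variable {C : Type*}

open Classical in
/-- sum of the products over all `k`-sets -/
noncomputable def E (r : C → ℝ≥0∞) (k : ℕ) : ℝ≥0∞ :=
  ∑' J : Finset C, if J.card = k then ∏ j ∈ J, r j else 0

open Classical in
/-- sum of the products over all `k`-sets avoiding `i` -/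
noncomputable def F (r : C → ℝ≥0∞) (i : C) (k : ℕ) : ℝ≥0∞ :=
  ∑' J : Finset C, if i ∉ J ∧ J.card = k then ∏ j ∈ J, r j else 0

open Classical in
/-- sum of the products over all `k`-sets containing `i` -/
noncomputable def G (r : C → ℝ≥0∞) (i : C) (k : ℕ) : ℝ≥0∞ :=
  ∑' J : Finset C, if i ∈ J ∧ J.card = k then ∏ j ∈ J, r j else 0

lemma E_eq (r : C → ℝ≥0∞) (i : C) (k : ℕ) : E r k = F r i k + G r i k := by
  classical
  unfold E F G
  rw [← ENNReal.tsum_add]
  congr 1
  funext J
  by_cases h1 : i ∈ J <;> by_cases h2 : J.card = k <;> simp [h1, h2]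

lemma F_le_E (r : C → ℝ≥0∞) (i : C) (k : ℕ) : F r i k ≤ E r k := by
  rw [E_eq r i k]; exact le_self_add

lemma E_zero (r : C → ℝ≥0∞) : E r 0 = 1 := by
  classical
  unfold E
  rw [tsum_eq_single ∅]
  · simp
  · intro J hJ
    rw [if_neg]
    simpa using hJ

lemma G_zero (r : C → ℝ≥0∞) (i : C) : G r i 0 = 0 := by
  classical
  unfold G
  rw [ENNReal.tsum_eq_zero]
  intro J
  rw [if_neg]
  rintro ⟨h1, h2⟩
  rw [Finset.card_eq_zero] at h2
  simp [h2] at h1

lemma G_succ (r : C → ℝ≥0∞) (i : C) (k : ℕ) : G r i (k + 1) = r i * F r i k := by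
  classical
  unfold G F
  rw [← ENNReal.tsum_mul_left]
  symm
  refine tsum_eq_tsum_of_ne_zero_bij (fun J => (J.1).erase i) ?_ ?_ ?_
  · rintro ⟨J, hJ⟩ ⟨J', hJ'⟩ h
    simp only [Function.mem_support] at hJ hJ'
    have h1 : i ∈ J := by
      by_contra hc
      exact hJ (by rw [if_neg]; exact fun h => hc h.1)
    have h2 : i ∈ J' := by
      by_contra hc
      exact hJ' (by rw [if_neg]; exact fun h => hc h.1)
    simp only at h
    apply Subtype.ext
    simp only
    rw [← Finset.insert_erase h1, ← Finset.insert_erase h2, h]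
  · intro J hJ
    simp only [Function.mem_support] at hJ
    have h1 : i ∉ J ∧ J.card = k := by
      by_contra hc
      exact hJ (by rw [if_neg hc, mul_zero])
    rw [if_pos h1] at hJ
    refine ⟨⟨insert i J, ?_⟩, ?_⟩
    · simp only [Function.mem_support]
      rw [if_pos, Finset.prod_insert h1.1]
      · exact hJ
      · exact ⟨Finset.mem_insert_self _ _, by rw [Finset.card_insert_of_notMem h1.1, h1.2]⟩
    · simp only
      exact Finset.erase_insert h1.1
  · rintro ⟨J, hJ⟩
    simp only [Function.mem_support] at hJ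
    have h1 : i ∈ J ∧ J.card = k + 1 := by
      by_contra hc
      exact hJ (by rw [if_neg hc])
    simp only
    rw [if_pos h1, if_pos, Finset.mul_prod_erase _ _ h1.1]
    refine ⟨Finset.notMem_erase _ _, ?_⟩
    rw [Finset.card_erase_of_mem h1.1, h1.2]
    rfl

lemma tsum_G (r : C → ℝ≥0∞) (k : ℕ) : ∑' i, G r i k = k * E r k := by
  classical
  unfold G E
  rw [ENNReal.tsum_comm, ← ENNReal.tsum_mul_left]
  congr 1
  funext J
  by_cases h : J.card = k
  · simp only [h, and_true, if_true]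
    rw [tsum_eq_sum (s := J)]
    · rw [Finset.sum_congr rfl (fun i hi => if_pos hi), Finset.sum_const, h, nsmul_eq_mul]
    · intro i hi
      rw [if_neg hi]
  · simp [h]

/-- the basic identity -/
lemma mass_mul_E (r : C → ℝ≥0∞) (k : ℕ) :
    (∑' j, r j) * E r k = ((k + 1 : ℕ) : ℝ≥0∞) * E r (k + 1) + ∑' j, r j * G r j k := by
  rw [← ENNReal.tsum_mul_right, ← tsum_G, ← ENNReal.tsum_add]
  congr 1
  funext j
  rw [G_succ, E_eq r j k, mul_add]

lemma mass_mul_E_zero (r : C → ℝ≥0∞) : (∑' j, r j) = E r 1 := by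
  have h := mass_mul_E r 0
  simpa [E_zero, G_zero] using h

lemma mass_mul_E_succ (r : C → ℝ≥0∞) (k : ℕ) :
    (∑' j, r j) * E r (k + 1)
      = ((k + 2 : ℕ) : ℝ≥0∞) * E r (k + 2) + ∑' j, r j ^ 2 * F r j k := by
  rw [mass_mul_E r (k + 1)]
  congr 2
  funext j
  rw [G_succ, pow_two, mul_assoc]

/-- telescoping: the chance that the first `n + 1` draws are distinct plus the chance that a
repetition came earlier is one -/
lemma telescope (p : C → ℝ≥0∞) (hp : ∑' j, p j = 1) (n : ℕ) :
    ∑ k ∈ range n, ((k + 1).factorial : ℝ≥0∞) * ∑' j, p j ^ 2 * F p j k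
      + ((n + 1).factorial : ℝ≥0∞) * E p (n + 1) = 1 := by
  induction n with
  | zero => simp [← mass_mul_E_zero, hp]
  | succ n ih =>
    have h := mass_mul_E_succ p n
    rw [hp, one_mul] at h
    rw [Finset.sum_range_succ, ← ih, h, Nat.factorial_succ (n + 1)]
    push_cast
    ring

lemma fact_mul_E_le_one (p : C → ℝ≥0∞) (hp : ∑' j, p j = 1) (n : ℕ) :
    (n.factorial : ℝ≥0∞) * E p n ≤ 1 := by
  cases n with
  | zero => simp [E_zero]
  | succ n => rw [← telescope p hp n]; exact le_add_self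

/-- the series in the law of the repeated colour -/
noncomputable def S (p : C → ℝ≥0∞) (i : C) : ℝ≥0∞ :=
  ∑' k : ℕ, ((k + 1).factorial : ℝ≥0∞) * F p i k

lemma total_le_one (p : C → ℝ≥0∞) (hp : ∑' j, p j = 1) :
    ∑' i, p i ^ 2 * S p i ≤ 1 := by
  unfold S
  simp_rw [← ENNReal.tsum_mul_left]
  rw [ENNReal.tsum_comm]
  refine ENNReal.tsum_le_of_sum_range_le (fun n => ?_)
  rw [← telescope p hp n]
  refine le_trans (le_of_eq ?_) le_self_add
  refine Finset.sum_congr rfl (fun k _ => ?_)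
  rw [← ENNReal.tsum_mul_left]
  congr 1
  funext j
  ring

/-- a real-variable lemma on sequences -/
lemma seq_bound (u : ℕ → ℝ) (a f s : ℝ) (hf : 0 ≤ f) (h0 : ∀ k, 0 ≤ u k)
    (h1 : ∀ k, u k ≤ 1) (hz : 1 ≤ u 1 + a * u 0)
    (hr : ∀ k, u (k + 1) ≤ u (k + 2) + a * u (k + 1) + f * (((k : ℝ) + 1) * u k))
    (hs : ∀ n, ∑ k ∈ range n, ((k : ℝ) + 1) * u k ≤ s) :
    1 / 2 ≤ (f + a ^ 2) * s := by
  have hA : ∀ n, 1 ≤ u (n + 1) + a * ∑ k ∈ range (n + 1), u k
      + f * ∑ k ∈ range n, ((k : ℝ) + 1) * u k := by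
    intro n
    induction n with
    | zero => simpa using hz
    | succ n ih =>
      rw [Finset.sum_range_succ _ (n + 1), Finset.sum_range_succ (fun k => ((k : ℝ) + 1) * u k) n]
      have := hr n
      nlinarith
  have hU : ∀ n, ∑ k ∈ range n, u k ≤ n := by
    intro n
    induction n with
    | zero => simp
    | succ n ih =>
      rw [Finset.sum_range_succ]
      have := h1 n
      push_cast
      linarith
  have hB : ∀ n, (∑ k ∈ range n, u k) ^ 2 ≤ 2 * ∑ k ∈ range n, ((k : ℝ) + 1) * u k := by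
    intro n
    induction n with
    | zero => simp
    | succ n ih =>
      rw [Finset.sum_range_succ, Finset.sum_range_succ (fun k => ((k : ℝ) + 1) * u k) n]
      have e1 := hU n
      have e2 := h0 n
      have e3 := h1 n
      nlinarith [mul_le_mul_of_nonneg_right e1 e2, mul_le_mul_of_nonneg_right e3 e2]
  have hC : ∀ n : ℕ, 1 / 2 ≤ u (n + 1) + (f + a ^ 2) * s := by
    intro n
    have e1 := hA n
    have e2 := hB (n + 1)
    have e3 := hs n
    have e4 := hs (n + 1)
    set U := ∑ k ∈ range (n + 1), u k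
    have e5 : a * U ≤ 1 / 2 + a ^ 2 * s := by
      have : a ^ 2 * U ^ 2 ≤ a ^ 2 * (2 * s) :=
        mul_le_mul_of_nonneg_left (by linarith) (sq_nonneg a)
      nlinarith [sq_nonneg (a * U - 1)]
    have e6 := mul_le_mul_of_nonneg_left e3 hf
    nlinarith
  have hD : ∀ n : ℕ, ((n : ℝ) + 1) * u n ≤ s := by
    intro n
    refine le_trans ?_ (hs (n + 1))
    rw [Finset.sum_range_succ]
    have : 0 ≤ ∑ k ∈ range n, ((k : ℝ) + 1) * u k :=
      Finset.sum_nonneg (fun k _ => mul_nonneg (by positivity) (h0 k))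
    linarith
  by_contra hc
  push Not at hc
  set d := 1 / 2 - (f + a ^ 2) * s with hd
  have hdpos : 0 < d := by linarith
  obtain ⟨n, hn⟩ := exists_nat_gt (s / d)
  have e1 := hC n
  have e2 := hD (n + 1)
  have e3 : d ≤ u (n + 1) := by linarith
  rw [div_lt_iff₀ hdpos] at hn
  push_cast at e2
  have e4 : ((n : ℝ) + 1 + 1) * d ≤ ((n : ℝ) + 1 + 1) * u (n + 1) :=
    mul_le_mul_of_nonneg_left e3 (by positivity)
  nlinarith

lemma E_update (p : C → ℝ≥0∞) (i : C) [DecidableEq C] (k : ℕ) :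
    E (Function.update p i 0) k = F p i k := by
  classical
  unfold E F
  congr 1
  funext J
  by_cases h2 : J.card = k
  · by_cases h1 : i ∈ J
    · rw [if_pos h2, if_neg (fun h => h.1 h1)]
      exact Finset.prod_eq_zero h1 (by simp)
    · rw [if_pos h2, if_pos ⟨h1, h2⟩]
      refine Finset.prod_congr rfl (fun j hj => ?_)
      rw [Function.update_of_ne]
      rintro rfl
      exact h1 hj
  · rw [if_neg h2, if_neg (fun h => h2 h.2)]

lemma tsum_update (g : C → ℝ≥0∞) (i : C) [DecidableEq C] :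
    ∑' j, g j = g i + ∑' j, Function.update g i 0 j := by
  rw [ENNReal.tsum_eq_add_tsum_ite i]
  congr 2
  funext j
  by_cases h : j = i
  · subst h; simp
  · simp [h]

/-- the key lower bound -/
lemma half_le (p : C → ℝ≥0∞) (hp : ∑' j, p j = 1) (i : C) :
    1 / 2 ≤ (∑' j, p j ^ 2) * S p i := by
  classical
  set r := Function.update p i 0 with hr
  set f := ∑' j, r j ^ 2 with hf
  have hσ : p i + ∑' j, r j = 1 := by rw [← hp, tsum_update p i]
  have hf2 : ∑' j, p j ^ 2 = p i ^ 2 + f := by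
    rw [tsum_update (fun j => p j ^ 2) i]
    congr 2
    funext j
    by_cases h : j = i
    · subst h; simp [hr]
    · simp [hr, h]
  have hple : ∀ j, p j ≤ 1 := fun j => by rw [← hp]; exact ENNReal.le_tsum j
  have hf2le : ∑' j, p j ^ 2 ≤ 1 := by
    rw [← hp]
    refine ENNReal.tsum_le_tsum (fun j => ?_)
    rw [pow_two]
    exact mul_le_of_le_one_right' (hple j)
  have hf2ne : ∑' j, p j ^ 2 ≠ 0 := by
    intro h
    rw [ENNReal.tsum_eq_zero] at h
    have : ∑' j, p j = 0 := by
      rw [ENNReal.tsum_eq_zero]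
      intro j
      exact pow_eq_zero_iff (two_ne_zero) |>.mp (h j)
    rw [hp] at this
    exact one_ne_zero this
  by_cases hS : S p i = ∞
  · rw [hS, ENNReal.mul_top hf2ne]; exact le_top
  have hfle : f ≤ 1 := le_trans (by rw [hf2]; exact le_add_self) hf2le
  have hfne : f ≠ ∞ := ne_top_of_le_ne_top ENNReal.one_ne_top hfle
  have hpne : p i ≠ ∞ := ne_top_of_le_ne_top ENNReal.one_ne_top (hple i)
  set w : ℕ → ℝ≥0∞ := fun k => (k.factorial : ℝ≥0∞) * F p i k with hw
  have hw1 : ∀ k, w k ≤ 1 := fun k =>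
    le_trans (mul_le_mul_right (F_le_E p i k) _) (fact_mul_E_le_one p hp k)
  have hwne : ∀ k, w k ≠ ∞ := fun k => ne_top_of_le_ne_top ENNReal.one_ne_top (hw1 k)
  have hw0 : w 0 = 1 := by
    simp only [hw, Nat.factorial_zero, Nat.cast_one, one_mul]
    rw [← E_update, E_zero]
  have hz : 1 = w 1 + p i * w 0 := by
    rw [hw0, mul_one, ← hσ, mass_mul_E_zero, hr, E_update, add_comm]
    simp [hw]
  have hrec : ∀ k, w (k + 1) ≤ w (k + 2) + p i * w (k + 1) + f * (((k : ℝ≥0∞) + 1) * w k) := by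
    intro k
    have h := mass_mul_E_succ r k
    have h2 : ∑' j, r j ^ 2 * F r j k ≤ f * F p i k := by
      rw [hf, ← ENNReal.tsum_mul_right]
      refine ENNReal.tsum_le_tsum (fun j => mul_le_mul_right ?_ _)
      rw [← E_update p i k]
      exact F_le_E r j k
    rw [hr, E_update, E_update, ← hr] at h
    calc w (k + 1) = (p i + ∑' j, r j) * w (k + 1) := by rw [hσ, one_mul]
      _ = p i * w (k + 1) + ((k + 1).factorial : ℝ≥0∞) * ((∑' j, r j) * F p i (k + 1)) := by
          simp only [hw]; ring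
      _ ≤ p i * w (k + 1) + ((k + 1).factorial : ℝ≥0∞) *
            (((k + 2 : ℕ) : ℝ≥0∞) * F p i (k + 2) + f * F p i k) := by
          rw [h]; gcongr
      _ = _ := by
          simp only [hw]
          rw [Nat.factorial_succ (k + 1), Nat.factorial_succ k]
          push_cast
          ring
  have hsum : ∀ n, ∑ k ∈ range n, ((k : ℝ≥0∞) + 1) * w k ≤ S p i := by
    intro n
    unfold S
    refine le_trans (le_of_eq ?_) (ENNReal.sum_le_tsum (range n))
    refine Finset.sum_congr rfl (fun k _ => ?_)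
    simp only [hw]
    rw [Nat.factorial_succ k]
    push_cast
    ring
  clear_value w
  have key := seq_bound (fun k => (w k).toReal) (p i).toReal f.toReal (S p i).toReal
    ENNReal.toReal_nonneg (fun k => ENNReal.toReal_nonneg)
    (fun k => by simpa using ENNReal.toReal_mono ENNReal.one_ne_top (hw1 k))
    (by
      have := congrArg ENNReal.toReal hz
      rw [ENNReal.toReal_add (hwne 1) (ENNReal.mul_ne_top hpne (hwne 0)), ENNReal.toReal_mul] at this
      simpa using this.le)
    (fun k => by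
      have hk : ((k : ℝ≥0∞) + 1) ≠ ∞ := by simp
      have e := ENNReal.toReal_mono (ENNReal.add_ne_top.mpr ⟨ENNReal.add_ne_top.mpr
        ⟨hwne _, ENNReal.mul_ne_top hpne (hwne _)⟩,
        ENNReal.mul_ne_top hfne (ENNReal.mul_ne_top hk (hwne _))⟩) (hrec k)
      rw [ENNReal.toReal_add (ENNReal.add_ne_top.mpr ⟨hwne _, ENNReal.mul_ne_top hpne (hwne _)⟩)
        (ENNReal.mul_ne_top hfne (ENNReal.mul_ne_top hk (hwne _))),
        ENNReal.toReal_add (hwne _) (ENNReal.mul_ne_top hpne (hwne _)), ENNReal.toReal_mul,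
        ENNReal.toReal_mul, ENNReal.toReal_mul,
        ENNReal.toReal_add (by simp) ENNReal.one_ne_top] at e
      simpa using e)
    (fun n => by
      have e := ENNReal.toReal_mono hS (hsum n)
      rw [ENNReal.toReal_sum (fun k _ => ENNReal.mul_ne_top (by simp) (hwne k))] at e
      refine le_trans (le_of_eq ?_) e
      refine Finset.sum_congr rfl (fun k _ => ?_)
      rw [ENNReal.toReal_mul, ENNReal.toReal_add (by simp) ENNReal.one_ne_top]
      simp)
  rw [hf2, add_comm]
  have hne : (f + p i ^ 2) * S p i ≠ ∞ :=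
    ENNReal.mul_ne_top (ENNReal.add_ne_top.mpr ⟨hfne, ENNReal.pow_ne_top hpne⟩) hS
  rw [← ENNReal.toReal_le_toReal (by simp) hne, ENNReal.toReal_mul,
    ENNReal.toReal_add hfne (ENNReal.pow_ne_top hpne), ENNReal.toReal_pow]
  simpa using key

lemma tsum_sq_ne_zero (p : C → ℝ≥0∞) (hp : ∑' j, p j = 1) : ∑' j, p j ^ 2 ≠ 0 := by
  intro h
  rw [ENNReal.tsum_eq_zero] at h
  have : ∑' j, p j = 0 := by
    rw [ENNReal.tsum_eq_zero]
    intro j
    exact pow_eq_zero_iff (two_ne_zero) |>.mp (h j)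
  rw [hp] at this
  exact one_ne_zero this

lemma tsum_sq_ne_top (p : C → ℝ≥0∞) (hp : ∑' j, p j = 1) : ∑' j, p j ^ 2 ≠ ∞ := by
  have hple : ∀ j, p j ≤ 1 := fun j => by rw [← hp]; exact ENNReal.le_tsum j
  refine ne_top_of_le_ne_top ENNReal.one_ne_top ?_
  rw [← hp]
  refine ENNReal.tsum_le_tsum (fun j => ?_)
  rw [pow_two]
  exact mul_le_of_le_one_right' (hple j)

/-- the law of the first method is at most twice the law of the second -/
lemma ratio_le (p : C → ℝ≥0∞) (hp : ∑' j, p j = 1) (i : C) :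
    p i ^ 2 / ∑' j, p j ^ 2 ≤ 2 * (p i ^ 2 * S p i) := by
  rw [ENNReal.div_le_iff (tsum_sq_ne_zero p hp) (tsum_sq_ne_top p hp)]
  have h := half_le p hp i
  calc p i ^ 2 = p i ^ 2 * (2 * (1 / 2)) := by
        rw [one_div, ENNReal.mul_inv_cancel (by simp) (by simp), mul_one]
    _ ≤ p i ^ 2 * (2 * ((∑' j, p j ^ 2) * S p i)) := by gcongr
    _ = _ := by ring

end Pool.Agent.P.MP_c9cfcf_pr
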